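import Mathlib

/-!
# The permanent of a matrix of rank at most two

`permanent (fun i j => a i * a' j + b i * b' j) = ∑ k, k! (N-k)! e_k(a,b) e_k(a',b')`
where `e_k(a,b)` is the coefficient of `X^k` in `∏ i (a i X + b i)`.
-/

namespace Pool.Agent.R161.PermRankTwo

open Finset Polynomial Nat

variable {ι : Type*} [Fintype ι] [DecidableEq ι]

section Count

lemma exists_perm_map (S T : Finset ι) (h : S.card = T.card) :
    ∃ τ : Equiv.Perm ι, S.map τ.toEmbedding = T := by
  classical
  let e : S ≃ T := Finset.equivOfCardEq h
  let τ : Equiv.Perm ι := e.extendSubtype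
  refine ⟨τ, ?_⟩
  apply Finset.eq_of_subset_of_card_le
  · intro x hx
    rw [Finset.mem_map] at hx
    obtain ⟨y, hy, rfl⟩ := hx
    exact e.extendSubtype_mem y hy
  · rw [Finset.card_map, h]

lemma sum_perm_map {R : Type*} [CommRing R] [IsDomain R] [CharZero R]
    (F : Finset ι → R) (T : Finset ι) :
    ∑ σ : Equiv.Perm ι, F (T.map σ.toEmbedding) =
      ((T.card ! * (Fintype.card ι - T.card)! : ℕ) : R) *
        ∑ S ∈ powersetCard T.card univ, F S := by
  classical
  set k := T.card with hk
  have hkN : k ≤ Fintype.card ι := Finset.card_le_univ T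
  -- invariance
  have inv : ∀ T' ∈ powersetCard k (univ : Finset ι),
      ∑ σ : Equiv.Perm ι, F (T'.map σ.toEmbedding) = ∑ σ : Equiv.Perm ι, F (T.map σ.toEmbedding) := by
    intro T' hT'
    rw [mem_powersetCard] at hT'
    obtain ⟨τ, hτ⟩ := exists_perm_map T' T (by rw [hT'.2])
    rw [← hτ]
    refine Fintype.sum_equiv (Equiv.mulRight τ⁻¹) _ _ ?_
    intro σ
    congr 1
    rw [Finset.map_map]
    congr 1
    ext x
    simp
  have h1 : ∑ T' ∈ powersetCard k (univ : Finset ι), ∑ σ : Equiv.Perm ι, F (T'.map σ.toEmbedding)
      = (((Fintype.card ι).choose k : ℕ) : R) * ∑ σ : Equiv.Perm ι, F (T.map σ.toEmbedding) := by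
    rw [Finset.sum_congr rfl inv, Finset.sum_const, card_powersetCard, nsmul_eq_mul,
      Finset.card_univ]
  have h2 : ∑ T' ∈ powersetCard k (univ : Finset ι), ∑ σ : Equiv.Perm ι, F (T'.map σ.toEmbedding)
      = (((Fintype.card ι)! : ℕ) : R) * ∑ S ∈ powersetCard k (univ : Finset ι), F S := by
    rw [Finset.sum_comm]
    have : ∀ σ : Equiv.Perm ι, ∑ T' ∈ powersetCard k (univ : Finset ι), F (T'.map σ.toEmbedding)
        = ∑ S ∈ powersetCard k (univ : Finset ι), F S := by
      intro σ
      refine Finset.sum_nbij' (fun T' => T'.map σ.toEmbedding) (fun T' => T'.map σ.symm.toEmbedding)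
        ?_ ?_ ?_ ?_ ?_
      · intro a ha
        rw [mem_powersetCard] at ha ⊢
        exact ⟨subset_univ _, by rw [Finset.card_map]; exact ha.2⟩
      · intro a ha
        rw [mem_powersetCard] at ha ⊢
        exact ⟨subset_univ _, by rw [Finset.card_map]; exact ha.2⟩
      · intro a _
        ext x
        simp
      · intro a _
        ext x
        simp
      · intro a _
        rfl
    rw [Finset.sum_congr rfl (fun σ _ => this σ), Finset.sum_const, nsmul_eq_mul,
      Finset.card_univ, Fintype.card_perm]
  have h3 : (((Fintype.card ι).choose k : ℕ) : R) ≠ 0 := by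
    have := Nat.choose_pos hkN
    exact_mod_cast this.ne'
  apply mul_left_cancel₀ h3
  rw [← h1, h2, ← mul_assoc, ← Nat.cast_mul]
  congr 2
  rw [← mul_assoc, Nat.choose_mul_factorial_mul_factorial hkN]

end Count

/-- The coefficient of `X^k` in `∏ i (a i X + b i)` -/
noncomputable def ee {R : Type*} [CommRing R] (a b : ι → R) (k : ℕ) : R :=
  (∏ i, (C (a i) * X + C (b i)) : R[X]).coeff k

lemma ee_eq {R : Type*} [CommRing R] (a b : ι → R) (k : ℕ) :
    ee a b k = ∑ S ∈ powersetCard k univ, (∏ i ∈ S, a i) * ∏ i ∈ univ \ S, b i := by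
  classical
  unfold ee
  rw [Finset.prod_add, finsetSum_coeff]
  have : ∀ S ∈ (univ : Finset ι).powerset,
      ((∏ i ∈ S, C (a i) * X) * ∏ i ∈ univ \ S, C (b i) : R[X]).coeff k
        = if S.card = k then (∏ i ∈ S, a i) * ∏ i ∈ univ \ S, b i else 0 := by
    intro S _
    rw [Finset.prod_mul_distrib, Finset.prod_const, ← map_prod C, ← map_prod C]
    have : (C (∏ x ∈ S, a x) * X ^ S.card * C (∏ x ∈ univ \ S, b x) : R[X])
        = C ((∏ i ∈ S, a i) * ∏ i ∈ univ \ S, b i) * X ^ S.card := by
      rw [C_mul]; ring
    rw [this, coeff_C_mul, coeff_X_pow]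
    simp only [eq_comm (a := k)]
    split_ifs <;> simp
  rw [Finset.sum_congr rfl this, ← Finset.sum_filter]
  congr 1
  ext S
  simp [mem_powersetCard]

theorem permanent_rank_two {R : Type*} [CommRing R] [IsDomain R] [CharZero R]
    (a b a' b' : ι → R) :
    Matrix.permanent (Matrix.of fun i j => a i * a' j + b i * b' j) =
      ∑ k ∈ range (Fintype.card ι + 1),
        ((k ! * (Fintype.card ι - k)! : ℕ) : R) * (ee a b k * ee a' b' k) := by
  classical
  have h0 : Matrix.permanent (Matrix.of fun i j => a i * a' j + b i * b' j)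
      = ∑ T ∈ (univ : Finset ι).powerset, ((∏ i ∈ T, a' i) * ∏ i ∈ univ \ T, b' i) *
          ∑ σ : Equiv.Perm ι, (fun S : Finset ι => (∏ i ∈ S, a i) * ∏ i ∈ univ \ S, b i)
            (T.map σ.toEmbedding) := by
    unfold Matrix.permanent
    have : ∀ σ : Equiv.Perm ι, ∏ i, (Matrix.of fun i j => a i * a' j + b i * b' j) (σ i) i
        = ∑ T ∈ (univ : Finset ι).powerset, ((∏ i ∈ T, a' i) * ∏ i ∈ univ \ T, b' i) *
            (fun S : Finset ι => (∏ i ∈ S, a i) * ∏ i ∈ univ \ S, b i) (T.map σ.toEmbedding) := by
      intro σ
      simp only [Matrix.of_apply]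
      rw [Finset.prod_add]
      refine Finset.sum_congr rfl ?_
      intro T _
      rw [Finset.prod_mul_distrib, Finset.prod_mul_distrib]
      have e1 : ∏ i ∈ T.map σ.toEmbedding, a i = ∏ i ∈ T, a (σ i) := by
        rw [Finset.prod_map]; rfl
      have e2 : ∏ i ∈ univ \ T.map σ.toEmbedding, b i = ∏ i ∈ univ \ T, b (σ i) := by
        have : univ \ T.map σ.toEmbedding = (univ \ T).map σ.toEmbedding := by
          ext x
          simp only [mem_sdiff, mem_univ, true_and, mem_map, Equiv.coe_toEmbedding]
          constructor
          · intro h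
            refine ⟨σ.symm x, ?_, by simp⟩
            intro h'
            exact h ⟨_, h', by simp⟩
          · rintro ⟨y, hy, rfl⟩ ⟨z, hz, hzy⟩
            have := σ.injective hzy
            exact hy (this ▸ hz)
        rw [this, Finset.prod_map]; rfl
      rw [e1, e2]
      ring
    rw [Finset.sum_congr rfl (fun σ _ => this σ), Finset.sum_comm]
    refine Finset.sum_congr rfl ?_
    intro T _
    rw [Finset.mul_sum]
  rw [h0]
  rw [Finset.sum_congr rfl (fun T _ => congrArg
    (fun z => ((∏ i ∈ T, a' i) * ∏ i ∈ univ \ T, b' i) * z)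
    (sum_perm_map (fun S : Finset ι => (∏ i ∈ S, a i) * ∏ i ∈ univ \ S, b i) T))]
  rw [← Finset.sum_fiberwise_of_maps_to (s := (univ : Finset ι).powerset)
    (t := range (Fintype.card ι + 1)) (g := fun T => T.card)]
  · refine Finset.sum_congr rfl ?_
    intro k _
    rw [ee_eq, ee_eq]
    have : ((univ : Finset ι).powerset.filter fun T => T.card = k) = powersetCard k univ := by
      ext S; simp [mem_powersetCard]
    rw [this]
    rw [Finset.sum_congr rfl (g := fun T =>
      ((∏ i ∈ T, a' i) * ∏ i ∈ univ \ T, b' i) * (((k ! * (Fintype.card ι - k)! : ℕ) : R) *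
        ∑ S ∈ powersetCard k univ, (∏ i ∈ S, a i) * ∏ i ∈ univ \ S, b i))]
    · rw [← Finset.sum_mul]
      ring
    · intro T hT
      rw [mem_powersetCard] at hT
      rw [hT.2]
  · intro T _
    rw [mem_range]
    exact Nat.lt_succ_of_le (Finset.card_le_univ T)

/-! ### Computing the coefficients -/

/-- multiply a coefficient list by `a X + b` -/
def mulLin {R : Type*} [Add R] [Mul R] (a b : R) : R → List R → List R
  | prev, [] => [a * prev]
  | prev, c :: l => (b * c + a * prev) :: mulLin a b c l

/-- polynomial of a coefficient list -/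
noncomputable def toPoly {R : Type*} [CommRing R] : List R → R[X]
  | [] => 0
  | c :: l => C c + X * toPoly l

lemma toPoly_mulLin {R : Type*} [CommRing R] (a b : R) (l : List R) : ∀ prev : R,
    toPoly (mulLin a b prev l) = (C a * X + C b) * toPoly l + C (a * prev) := by
  induction l with
  | nil => intro prev; simp [mulLin, toPoly]
  | cons c l ih =>
    intro prev
    simp only [mulLin, toPoly, ih]
    simp only [map_add, map_mul]
    ring

lemma coeff_toPoly {R : Type*} [CommRing R] (l : List R) : ∀ k, (toPoly l).coeff k = l.getD k 0 := by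
  induction l with
  | nil => intro k; simp [toPoly]
  | cons c l ih =>
    intro k
    cases k with
    | zero => simp [toPoly]
    | succ k => simp [toPoly, coeff_X_mul, ih]

/-- coefficient list of `∏ (a X + b)` -/
def coefs {R : Type*} [CommRing R] : List (R × R) → List R
  | [] => [1]
  | v :: l => mulLin v.1 v.2 0 (coefs l)

lemma toPoly_coefs {R : Type*} [CommRing R] (l : List (R × R)) :
    toPoly (coefs l) = (l.map fun v => (C v.1 * X + C v.2 : R[X])).prod := by
  induction l with
  | nil => simp [coefs, toPoly]
  | cons v l ih => simp [coefs, toPoly_mulLin, ih]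

lemma length_mulLin {R : Type*} [Add R] [Mul R] (a b : R) (l : List R) : ∀ prev : R,
    (mulLin a b prev l).length = l.length + 1 := by
  induction l with
  | nil => intro prev; simp [mulLin]
  | cons c l ih => intro prev; simp [mulLin, ih]

lemma length_coefs {R : Type*} [CommRing R] (l : List (R × R)) :
    (coefs l).length = l.length + 1 := by
  induction l with
  | nil => simp [coefs]
  | cons v l ih => simp [coefs, length_mulLin, ih]

/-- `∑ i, (k+i)! (N-(k+i))! l_i l'_i` -/
def go {R : Type*} [CommRing R] (N : ℕ) : ℕ → List R → List R → R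
  | k, c :: l, c' :: l' => ((k ! * (N - k)! : ℕ) : R) * (c * c') + go N (k + 1) l l'
  | _, _, _ => 0

lemma go_eq {R : Type*} [CommRing R] (N : ℕ) (l : List R) : ∀ (l' : List R),
    l.length = l'.length → ∀ k, go N k l l' =
      ∑ i ∈ range l.length, (((k + i)! * (N - (k + i))! : ℕ) : R) *
        (l.getD i 0 * l'.getD i 0) := by
  induction l with
  | nil =>
    intro l' h k
    cases l' with
    | nil => simp [go]
    | cons c' l' => simp at h
  | cons c l ih =>
    intro l' h k
    cases l' with
    | nil => simp at h
    | cons c' l' =>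
      have h' : l.length = l'.length := by simpa using h
      rw [go, ih l' h' (k + 1), List.length_cons, Finset.sum_range_succ']
      rw [add_comm]
      congr 1
      refine Finset.sum_congr rfl ?_
      intro i _
      have : k + 1 + i = k + (i + 1) := by ring
      rw [this]
      simp

/-- the value of the rank two permanent computed from lists of vectors -/
def perL {R : Type*} [CommRing R] (L L' : List (R × R)) : R :=
  go L.length 0 (coefs L) (coefs L')

lemma ee_subtype {R : Type*} [CommRing R] {n : ℕ} (p : Fin n → Prop) [DecidablePred p]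
    (a b : Fin n → R) (k : ℕ) :
    ee (fun j : {j // p j} => a j) (fun j => b j) k =
      (coefs (((List.finRange n).filter p).map fun i => (a i, b i))).getD k 0 := by
  classical
  unfold ee
  rw [← coeff_toPoly, toPoly_coefs]
  congr 1
  rw [List.map_map]
  have h1 : (∏ i : {j // p j}, (C (a i) * X + C (b i) : R[X]))
      = ∏ i ∈ (univ : Finset (Fin n)).filter p, (C (a i) * X + C (b i) : R[X]) := by
    rw [← Finset.prod_subtype (univ.filter p) (by intro x; simp)
      (fun i => (C (a i) * X + C (b i) : R[X]))]
  rw [h1]
  have h2 : (univ : Finset (Fin n)).filter p = ((List.finRange n).filter p).toFinset := by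
    ext x; simp
  rw [h2, List.prod_toFinset _ ((List.nodup_finRange n).filter _)]
  rfl

lemma card_subtype_eq {n : ℕ} (p : Fin n → Prop) [DecidablePred p] :
    Fintype.card {j : Fin n // p j} = ((List.finRange n).filter p).length := by
  classical
  rw [Fintype.card_subtype]
  have h2 : (univ : Finset (Fin n)).filter p = ((List.finRange n).filter p).toFinset := by
    ext x; simp
  rw [h2, List.toFinset_card_of_nodup ((List.nodup_finRange n).filter _)]

theorem permanent_subtype {R : Type*} [CommRing R] [IsDomain R] [CharZero R] {n : ℕ}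
    (p : Fin n → Prop) [DecidablePred p] (a b a' b' : Fin n → R) :
    Matrix.permanent (Matrix.of fun i j : {j // p j} => a i * a' j + b i * b' j) =
      perL (((List.finRange n).filter p).map fun i => (a i, b i))
        (((List.finRange n).filter p).map fun i => (a' i, b' i)) := by
  classical
  have := permanent_rank_two (fun j : {j // p j} => a j) (fun j => b j) (fun j => a' j)
    (fun j => b' j)
  rw [this, perL, go_eq _ _ _ (by simp [length_coefs]), length_coefs, card_subtype_eq]
  simp only [List.length_map]
  refine Finset.sum_congr rfl ?_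
  intro k _
  rw [ee_subtype, ee_subtype, zero_add]

theorem permanent_fin {R : Type*} [CommRing R] [IsDomain R] [CharZero R] {n : ℕ}
    (a b a' b' : Fin n → R) :
    Matrix.permanent (Matrix.of fun i j : Fin n => a i * a' j + b i * b' j) =
      perL ((List.finRange n).map fun i => (a i, b i))
        ((List.finRange n).map fun i => (a' i, b' i)) := by
  classical
  have hee : ∀ (a b : Fin n → R) (k : ℕ), ee a b k =
      (coefs ((List.finRange n).map fun i => (a i, b i))).getD k 0 := by
    intro a b k
    unfold ee
    rw [← coeff_toPoly, toPoly_coefs]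
    congr 1
    rw [List.map_map]
    have h2 : (univ : Finset (Fin n)) = (List.finRange n).toFinset := by
      ext x; simp
    rw [h2, List.prod_toFinset _ (List.nodup_finRange n)]
    rfl
  rw [permanent_rank_two, perL, go_eq _ _ _ (by simp [length_coefs]), length_coefs,
    Fintype.card_fin]
  simp only [List.length_map, List.length_finRange]
  refine Finset.sum_congr rfl ?_
  intro k _
  rw [hee, hee, zero_add]

lemma permanent_map {R S : Type*} [CommRing R] [CommRing S] (f : R →+* S)
    (M : Matrix ι ι R) : (M.map f).permanent = f M.permanent := by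
  simp [Matrix.permanent, map_sum, map_prod]

end Pool.Agent.R161.PermRankTwo
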